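import Pool.Agent.R538.EB.Main

/-!
# Edge Blocking: instances
-/

namespace Pool.Agent.R538.EB

open Pool.Agent.H820R2.SS
open Pool.Agent.NPC.ANN (Forces rl pm us up ok3 ok3_iff rl_mem pm_mem Bd Bd_regs Bd_rules
  Bd_prems Bd_upd toNat_inj)

/-- Descriptions of Edge Blocking positions: the edges of the digraph, Left's edges, Right's edges,
for each vertex whether it is occupied, and the player to move (`true` for Left).  The vertices are
the numbers smaller than the length of the list of occupations. -/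
abbrev Desc : Type := List (ℕ × ℕ) × List (ℕ × ℕ) × List (ℕ × ℕ) × List Bool × Bool

/-- The description is correct: the edges join distinct vertices, and the players' edges are edges
of the digraph. -/
def IsPosition (A : Desc) : Prop :=
  (∀ e ∈ A.1, e.1 < A.2.2.2.1.length ∧ e.2 < A.2.2.2.1.length ∧ e.1 ≠ e.2) ∧
  (∀ e ∈ A.2.1, e ∈ A.1) ∧ ∀ e ∈ A.2.2.1, e ∈ A.1

/-- The moves of the game. -/
def Mv (A : Desc) : Bool × (ℕ → Bool) → Bool × (ℕ → Bool) → Prop :=
  GMove (fun p u v => (u, v) ∈ bif p then A.2.1 else A.2.2.1)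

/-- The position which is described. -/
def start (A : Desc) : Bool × (ℕ → Bool) := (A.2.2.2.2, fun v => A.2.2.2.1.getD v false)

/-- The player to move can force a win. -/
def MoverWins (A : Desc) : Prop := Forces (Mv A) true (start A)

/-- The other player can force a win. -/
def OtherWins (A : Desc) : Prop := Forces (Mv A) false (start A)

/-- Neither player can force a win. -/
def Drawn (A : Desc) : Prop := ¬ MoverWins A ∧ ¬ OtherWins A

/-! ### Renaming vertices -/

theorem transport {V : Type} [DecidableEq V] {E : Bool → V → V → Prop} {E' : Bool → ℕ → ℕ → Prop}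
    {ok : V → Prop} {f : V → ℕ} (hE : ∀ i u v, E i u v → ok u ∧ ok v)
    (hf : ∀ u v, ok u → ok v → f u = f v → u = v)
    (hE' : ∀ i x y, E' i x y ↔ ∃ u v, E i u v ∧ f u = x ∧ f v = y)
    {p : Bool} {P : V → Bool} {Q : ℕ → Bool} (h1 : ∀ v, ok v → Q (f v) = P v) {w : Bool} :
    Forces (GMove E) w (p, P) ↔ Forces (GMove E') w (p, Q) := by
  -- the common part
  have key : ∀ (P : V → Bool) (Q : ℕ → Bool) (u v : V), ok u → ok v →
      (∀ v, ok v → Q (f v) = P v) →
      (∀ v', ok v' → (Function.update (Function.update Q (f u) false) (f v) true) (f v') =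
          (Function.update (Function.update P u false) v true) v') := by
    intro P Q u v hu hv h1 v' hv'
    simp only [Function.update_apply]
    by_cases h4 : v' = v
    · subst h4
      rw [if_pos rfl, if_pos rfl]
    · rw [if_neg h4, if_neg (fun h => h4 (hf _ _ hv' hv h))]
      by_cases h5 : v' = u
      · subst h5
        rw [if_pos rfl, if_pos rfl]
      · rw [if_neg h5, if_neg (fun h => h5 (hf _ _ hv' hu h))]
        exact h1 _ hv'
  refine Forces.bisim_iff (R := fun P Q => P.1 = Q.1 ∧ ∀ v, ok v → Q.2 (f v) = P.2 v) ?_ ?_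
    ⟨rfl, h1⟩
  · rintro ⟨p, P⟩ ⟨p', Q⟩ ⟨hp, hR⟩ P' ⟨u, v, hu, hv, he, rfl⟩
    simp only at hp hR hu hv he
    subst hp
    obtain ⟨hou, hov⟩ := hE _ _ _ he
    exact ⟨_, ⟨f u, f v, by simp only; rw [hR _ hou, hu], by simp only; rw [hR _ hov, hv],
      (hE' _ _ _).2 ⟨u, v, he, rfl, rfl⟩, rfl⟩, rfl, key P Q u v hou hov hR⟩
  · rintro ⟨p, P⟩ ⟨p', Q⟩ ⟨hp, hR⟩ Q' ⟨x, y, hx, hy, he, rfl⟩
    simp only at hp hR hx hy he
    subst hp
    obtain ⟨u, v, he', rfl, rfl⟩ := (hE' _ _ _).1 he
    obtain ⟨hou, hov⟩ := hE _ _ _ he'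
    exact ⟨_, ⟨u, v, by simp only; rw [← hR _ hou, hx], by simp only; rw [← hR _ hov, hy],
      he', rfl⟩, rfl, key P Q u v hou hov hR⟩

/-! ### Labels -/

/-- Labels of vertices. -/
abbrev Lb : Type := ℕ × (ℕ × (ℕ × ℕ))

/-- The label of a vertex. -/
def code : V → Lb
  | .G => (0, 0, 0, 0)
  | .I => (1, 0, 0, 0)
  | .A => (2, 0, 0, 0)
  | .B => (3, 0, 0, 0)
  | .R r => (4, r, 0, 0)
  | .X r i k => (5, r, i, k)
  | .U r i k => (6, r, i, k)
  | .S r i k => (7, r, i, k)
  | .Z r i k => (8, r, i, k)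
  | .reg j (.p b) => (9, j, b.toNat, 0)
  | .reg j .q => (10, j, 0, 0)
  | .reg j .t => (11, j, 0, 0)

theorem code_inj : Function.Injective code := by
  intro a b h
  rcases a with _ | _ | _ | _ | r | ⟨r, i, k⟩ | ⟨r, i, k⟩ | ⟨r, i, k⟩ | ⟨r, i, k⟩ |
    ⟨j, y | _ | _⟩ <;>
  rcases b with _ | _ | _ | _ | r' | ⟨r', i', k'⟩ | ⟨r', i', k'⟩ | ⟨r', i', k'⟩ |
    ⟨r', i', k'⟩ | ⟨j', y' | _ | _⟩ <;>
  first
    | rfl
    | (exfalso; revert h; simp [code]; done)
    | (simp [code] at h; simp [h]; done)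
    | (simp only [code, Prod.mk.injEq, true_and, and_true] at h
       obtain ⟨rfl, h⟩ := h
       rw [toNat_inj h])

/-- the labels of the used vertices -/
def okL (M : ARM) (z : Lb) : Bool :=
  let k := z.1
  let a := z.2.1
  let b := z.2.2.1
  let c := z.2.2.2
  (decide (k ≤ 3) && (decide (a = 0) && (decide (b = 0) && decide (c = 0)))) ||
  (decide (k = 4) && (decide (a < M.2.2.length) && (decide (b = 0) && decide (c = 0)))) ||
  (decide (k = 5) && ok3 M a b c) ||
  ((decide (k = 6) || (decide (k = 7) || decide (k = 8))) && (decide (0 < c) && ok3 M a b c)) ||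
  (decide (k = 9) && (decide (a < M.1.length) && (decide (b < 2) && decide (c = 0)))) ||
  ((decide (k = 10) || decide (k = 11)) && (decide (a < M.1.length) && (decide (b = 0) &&
    decide (c = 0))))

theorem okL_code (M : ARM) (v : V) : okL M (code v) = ok M v := by
  rcases v with _ | _ | _ | _ | r | ⟨r, i, k⟩ | ⟨r, i, k⟩ | ⟨r, i, k⟩ | ⟨r, i, k⟩ |
    ⟨j, y | _ | _⟩ <;> simp [okL, ok, code]
  all_goals first
    | congr; done
    | (cases y <;> simp <;> congr)

theorem okL_surj {M : ARM} {z : Lb} (hk : z.1 < 12) (h : okL M z = true) : ∃ v, code v = z := by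
  obtain ⟨k, a, b, c⟩ := z
  simp only at hk
  interval_cases k <;> simp [okL] at h
  · obtain ⟨rfl, rfl, rfl⟩ := h
    exact ⟨.G, rfl⟩
  · obtain ⟨rfl, rfl, rfl⟩ := h
    exact ⟨.I, rfl⟩
  · obtain ⟨rfl, rfl, rfl⟩ := h
    exact ⟨.A, rfl⟩
  · obtain ⟨rfl, rfl, rfl⟩ := h
    exact ⟨.B, rfl⟩
  · obtain ⟨_, rfl, rfl⟩ := h
    exact ⟨.R a, rfl⟩
  · exact ⟨.X a b c, rfl⟩
  · exact ⟨.U a b c, rfl⟩
  · exact ⟨.S a b c, rfl⟩
  · exact ⟨.Z a b c, rfl⟩
  · obtain ⟨_, hb, rfl⟩ := h
    refine ⟨.reg a (.p (decide (b = 1))), ?_⟩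
    interval_cases b <;> simp [code]
  · obtain ⟨_, rfl, rfl⟩ := h
    exact ⟨.reg a .q, rfl⟩
  · obtain ⟨_, rfl, rfl⟩ := h
    exact ⟨.reg a .t, rfl⟩

/-- Left's edges for control tokens -/
def clL (M : ARM) (z z' : Lb) : Bool :=
  let k := z.1
  let a := z.2.1
  let b := z.2.2.1
  let c := z.2.2.2
  let k' := z'.1
  let a' := z'.2.1
  let b' := z'.2.2.1
  let c' := z'.2.2.2
  (decide (k = 0) && (decide (k' = 2) || (decide (k' = 4) && decide ((rl M a').1 = M.2.1)))) ||
  ((decide (k = 1) || (decide (k = 2) || (decide (k = 4) || decide (k = 8)))) &&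
    decide (k' = 10)) ||
  (decide (k = 3) && decide (k' = 2)) ||
  (decide (k = 5) && (
    (decide (k' = 6) && (decide (a = a') && (decide (b = b') && decide (c = c')))) ||
    (decide (k' = 4) && (decide (c = 0) && decide ((rl M a').1 = (pm M a b).1))))) ||
  (decide (k = 6) && ((decide (k' = 7) && (decide (a = a') && (decide (b = b') &&
    decide (c = c')))) || (decide (k' = 10) && !decide (a' = (up M a b c).1)))) ||
  (decide (k = 7) && ((decide (k' = 8) && (decide (a = a') && (decide (b = b') &&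
    decide (c = c')))) || (decide (k' = 11) ||
    (decide (k' = 9) && (decide (a' = (up M a b c).1) &&
      decide (decide (b' = 1) = !(up M a b c).2))))))

/-- Right's edges for control tokens -/
def crL (M : ARM) (z z' : Lb) : Bool :=
  let k := z.1
  let a := z.2.1
  let b := z.2.2.1
  let c := z.2.2.2
  let k' := z'.1
  let a' := z'.2.1
  let b' := z'.2.2.1
  let c' := z'.2.2.2
  (decide (k = 1) && decide (k' = 0)) ||
  (decide (k = 2) && decide (k' = 3)) ||
  (decide (k = 4) && (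
    (decide (k' = 9) && decide ((a', !decide (b' = 1)) ∈ (rl M a).2.1)) ||
    (decide (k' = 5) && (decide (a = a') && decide (c' = (us M a' b').length))))) ||
  (decide (k = 6) && (decide (k' = 11) && decide (a' = (up M a b c).1))) ||
  (decide (k = 8) &&
    (decide (k' = 5) && (decide (a = a') && (decide (b = b') && decide (c = c' + 1)))))

/-- Left's edges for region tokens (to the hole) -/
def tlL (z z' : Lb) : Bool :=
  decide (z.2.1 = z'.2.1) && (decide (z.1 = 11) && decide (z'.1 = 10))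

/-- Right's edges for region tokens (to the hole) -/
def trL (z z' : Lb) : Bool :=
  decide (z.2.1 = z'.2.1) && ((decide (z.1 = 10) && decide (z'.1 = 9)) ||
    (decide (z.1 = 9) && decide (z'.1 = 10)))

theorem clL_code (M : ARM) (u v : V) : clL M (code u) (code v) = cl M u v := by
  rcases u with _ | _ | _ | _ | r | ⟨r, i, k⟩ | ⟨r, i, k⟩ | ⟨r, i, k⟩ | ⟨r, i, k⟩ |
    ⟨j, y | _ | _⟩ <;>
  rcases v with _ | _ | _ | _ | r' | ⟨r', i', k'⟩ | ⟨r', i', k'⟩ | ⟨r', i', k'⟩ |
    ⟨r', i', k'⟩ | ⟨j', y' | _ | _⟩ <;> simp [clL, cl, code]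
  all_goals congr

theorem crL_code (M : ARM) (u v : V) : crL M (code u) (code v) = cr M u v := by
  rcases u with _ | _ | _ | _ | r | ⟨r, i, k⟩ | ⟨r, i, k⟩ | ⟨r, i, k⟩ | ⟨r, i, k⟩ |
    ⟨j, y | _ | _⟩ <;>
  rcases v with _ | _ | _ | _ | r' | ⟨r', i', k'⟩ | ⟨r', i', k'⟩ | ⟨r', i', k'⟩ |
    ⟨r', i', k'⟩ | ⟨j', y' | _ | _⟩ <;> simp [crL, cr, code]
  all_goals congr

theorem tlL_code (u v : V) : tlL (code u) (code v) = tadj true u v := by
  rcases u with _ | _ | _ | _ | r | ⟨r, i, k⟩ | ⟨r, i, k⟩ | ⟨r, i, k⟩ | ⟨r, i, k⟩ |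
    ⟨j, y | _ | _⟩ <;>
  rcases v with _ | _ | _ | _ | r' | ⟨r', i', k'⟩ | ⟨r', i', k'⟩ | ⟨r', i', k'⟩ |
    ⟨r', i', k'⟩ | ⟨j', y' | _ | _⟩ <;> simp [tlL, tadj, radj, code]

theorem trL_code (u v : V) : trL (code u) (code v) = tadj false u v := by
  rcases u with _ | _ | _ | _ | r | ⟨r, i, k⟩ | ⟨r, i, k⟩ | ⟨r, i, k⟩ | ⟨r, i, k⟩ |
    ⟨j, y | _ | _⟩ <;>
  rcases v with _ | _ | _ | _ | r' | ⟨r', i', k'⟩ | ⟨r', i', k'⟩ | ⟨r', i', k'⟩ |
    ⟨r', i', k'⟩ | ⟨j', y' | _ | _⟩ <;> simp [trL, tadj, radj, code]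

/-! ### The instance -/

/-- all labels -/
def vs (M : ARM) : List Lb :=
  ((List.range 12) ×ˢ ((List.range (Bd M)) ×ˢ ((List.range (Bd M)) ×ˢ
    (List.range (Bd M))))).filter (okL M)

theorem vs_nodup (M : ARM) : (vs M).Nodup := by
  unfold vs
  apply List.Nodup.filter
  exact List.nodup_range.product (List.nodup_range.product
    (List.nodup_range.product List.nodup_range))

theorem mem_vs {M : ARM} {z : Lb} : z ∈ vs M ↔ ∃ v, ok M v = true ∧ code v = z := by
  unfold vs
  rw [List.mem_filter]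
  constructor
  · rintro ⟨h1, h2⟩
    have h3 : z.1 < 12 := by
      obtain ⟨k, a, b, c⟩ := z
      simp only [List.mem_product, List.mem_range] at h1
      exact h1.1
    obtain ⟨v, rfl⟩ := okL_surj h3 h2
    exact ⟨v, by rwa [okL_code] at h2, rfl⟩
  · rintro ⟨v, hv, rfl⟩
    refine ⟨?_, by rw [okL_code]; exact hv⟩
    have hB := Bd_regs M
    have hB2 := Bd_rules M
    rcases v with _ | _ | _ | _ | r | ⟨r, i, k⟩ | ⟨r, i, k⟩ | ⟨r, i, k⟩ | ⟨r, i, k⟩ |
      ⟨j, y | _ | _⟩ <;>
    simp only [code, List.mem_product, List.mem_range]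
    · omega
    · omega
    · omega
    · omega
    · simp only [ok, decide_eq_true_eq] at hv
      omega
    · simp only [ok] at hv
      obtain ⟨h1, h2, h3⟩ := ok3_iff.1 hv
      have h4 := Bd_prems h1 h2
      have h5 := Bd_upd hv
      omega
    · simp only [ok, Bool.and_eq_true] at hv
      obtain ⟨h1, h2, h3⟩ := ok3_iff.1 hv.2
      have h4 := Bd_prems h1 h2
      have h5 := Bd_upd hv.2
      omega
    · simp only [ok, Bool.and_eq_true] at hv
      obtain ⟨h1, h2, h3⟩ := ok3_iff.1 hv.2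
      have h4 := Bd_prems h1 h2
      have h5 := Bd_upd hv.2
      omega
    · simp only [ok, Bool.and_eq_true] at hv
      obtain ⟨h1, h2, h3⟩ := ok3_iff.1 hv.2
      have h4 := Bd_prems h1 h2
      have h5 := Bd_upd hv.2
      omega
    · simp only [ok, decide_eq_true_eq] at hv
      have : y.toNat ≤ 1 := by cases y <;> simp
      omega
    · simp only [ok, decide_eq_true_eq] at hv
      omega
    · simp only [ok, decide_eq_true_eq] at hv
      omega

/-- the number of a vertex -/
def nu (M : ARM) (v : V) : ℕ := (vs M).idxOf (code v)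

theorem nu_lt {M : ARM} {v : V} (h : ok M v = true) : nu M v < (vs M).length :=
  List.idxOf_lt_length_iff.2 (mem_vs.2 ⟨v, h, rfl⟩)

theorem nu_get {M : ARM} {v : V} (h : ok M v = true) (d : Lb) :
    (vs M).getD (nu M v) d = code v := by
  rw [List.getD_eq_getElem _ _ (nu_lt h)]
  exact List.getElem_idxOf (nu_lt h)

theorem nu_inj {M : ARM} {u v : V} (hu : ok M u = true) (hv : ok M v = true)
    (h : nu M u = nu M v) : u = v := by
  apply code_inj
  rw [← nu_get hu (0, 0, 0, 0), ← nu_get hv (0, 0, 0, 0), h]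

theorem nu_surj {M : ARM} {x : ℕ} (h : x < (vs M).length) : ∃ v, ok M v = true ∧ nu M v = x := by
  obtain ⟨v, hv, hc⟩ := mem_vs.1 (List.getElem_mem h)
  refine ⟨v, hv, ?_⟩
  unfold nu
  rw [hc]
  exact (vs_nodup M).idxOf_getElem x h

/-- the pairs of vertices satisfying a test on labels -/
def edg (l : List Lb) (t : Lb → Lb → Bool) : List (ℕ × ℕ) :=
  ((List.range l.length) ×ˢ (List.range l.length)).filter
    (fun p => t (l.getD p.1 (0, 0, 0, 0)) (l.getD p.2 (0, 0, 0, 0)))

/-- Left's edges -/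
def eL (M : ARM) : List (ℕ × ℕ) := edg (vs M) (fun z z' => clL M z z' || tlL z z')

/-- Right's edges -/
def eR (M : ARM) : List (ℕ × ℕ) := edg (vs M) (fun z z' => crL M z z' || trL z z')

/-- The instance; the control token starts at the vertex with label `(c, 0, 0, 0)`, and Left is to
move if `c = 0`. -/
def inst (c : ℕ) (M : ARM) : Desc :=
  (eL M ++ eR M, eL M, eR M,
    (vs M).map (fun z => decide (z = (c, 0, 0, 0)) ||
      (decide (9 ≤ z.1) && !(decide (z.1 = 9) && decide (z.2.2.1 = 0)))), decide (c = 0))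

theorem mem_edg {M : ARM} {t : Lb → Lb → Bool} {x y : ℕ} : (x, y) ∈ edg (vs M) t ↔
    ∃ u v, ok M u = true ∧ ok M v = true ∧ t (code u) (code v) = true ∧ nu M u = x ∧
      nu M v = y := by
  unfold edg
  rw [List.mem_filter, List.mem_product, List.mem_range, List.mem_range]
  constructor
  · rintro ⟨⟨h1, h2⟩, h3⟩
    obtain ⟨u, hu, rfl⟩ := nu_surj h1
    obtain ⟨v, hv, rfl⟩ := nu_surj h2
    refine ⟨u, v, hu, hv, ?_, rfl, rfl⟩
    simpa only [nu_get hu, nu_get hv] using h3
  · rintro ⟨u, v, hu, hv, h, rfl, rfl⟩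
    refine ⟨⟨nu_lt hu, nu_lt hv⟩, ?_⟩
    simpa only [nu_get hu, nu_get hv] using h

theorem inst_edges (c : ℕ) (M : ARM) (p : Bool) (x y : ℕ) :
    ((x, y) ∈ bif p then (inst c M).2.1 else (inst c M).2.2.1) ↔
    ∃ u v, EE M p u v ∧ nu M u = x ∧ nu M v = y := by
  cases p with
  | true =>
    simp only [inst, cond_true, eL]
    rw [mem_edg]
    constructor
    · rintro ⟨u, v, hu, hv, h, h1, h2⟩
      exact ⟨u, v, ⟨hu, hv, by rw [clL_code, tlL_code] at h; exact h⟩, h1, h2⟩
    · rintro ⟨u, v, ⟨hu, hv, h⟩, h1, h2⟩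
      exact ⟨u, v, hu, hv, by rw [clL_code, tlL_code]; exact h, h1, h2⟩
  | false =>
    simp only [inst, cond_false, eR]
    rw [mem_edg]
    constructor
    · rintro ⟨u, v, hu, hv, h, h1, h2⟩
      exact ⟨u, v, ⟨hu, hv, by rw [crL_code, trL_code] at h; exact h⟩, h1, h2⟩
    · rintro ⟨u, v, ⟨hu, hv, h⟩, h1, h2⟩
      exact ⟨u, v, hu, hv, by rw [crL_code, trL_code]; exact h, h1, h2⟩

theorem inst_start {c : ℕ} {M : ARM} {v0 : V} (hc : code v0 = (c, 0, 0, 0))
    (h0 : ctrl v0 = true) (v : V) (hv : ok M v = true) :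
    (start (inst c M)).2 (nu M v) = place M (some v0, cf M fun _ => false) v := by
  have h1 : (start (inst c M)).2 (nu M v) = (fun z : Lb => decide (z = (c, 0, 0, 0)) ||
      (decide (9 ≤ z.1) && !(decide (z.1 = 9) && decide (z.2.2.1 = 0)))) (code v) := by
    unfold start inst
    simp only
    rw [List.getD_eq_getElem _ _ (by rw [List.length_map]; exact nu_lt hv), List.getElem_map]
    have h2 := nu_get hv (0, 0, 0, 0)
    rw [List.getD_eq_getElem _ _ (nu_lt hv)] at h2
    rw [h2]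
  rw [h1]
  simp only
  have h2 : decide (code v = (c, 0, 0, 0)) = decide (v = v0) := by
    rw [decide_eq_decide, ← hc]
    exact ⟨fun h => code_inj h, fun h => by rw [h]⟩
  rw [h2]
  cases v with
  | reg j y =>
    have hj : j < M.1.length := by simpa [ok] using hv
    have hne : V.reg j y ≠ v0 := by
      rintro rfl
      simp [ctrl] at h0
    rw [place_reg _ _ (inv_some h0 _), decide_eq_false hne, decide_eq_true hj]
    have h3 : cf M (fun _ => false) j = some (.p false) := cf_of hj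
    rcases y with b | _ | _
    · cases b <;> simp [code, h3]
    · simp [code, h3]
    · simp [code, h3]
  | _ =>
    rw [place_ctrl _ _ rfl]
    simp only [code, Option.some.injEq]
    norm_num
    exact eq_comm

theorem inst_forces {c : ℕ} {M : ARM} {v0 : V} (hc : code v0 = (c, 0, 0, 0))
    (h0 : ctrl v0 = true) (w : Bool) :
    Forces (Mv (inst c M)) w (start (inst c M)) ↔
    Forces (SStep M) w (decide (c = 0), some v0, cf M fun _ => false) := by
  rw [forces_place (inv_some h0 _)]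
  symm
  exact transport (ok := fun v => ok M v = true) (f := nu M) (fun i u v h => ⟨h.1, h.2.1⟩)
    (fun u v => nu_inj) (inst_edges c M) (inst_start hc h0)

theorem tadj_ne {p : Bool} {u v : V} (h : tadj p u v = true) : u ≠ v := by
  rintro rfl
  cases u <;> simp [tadj] at h
  exact radj_ne h rfl

theorem inst_isPosition (c : ℕ) (M : ARM) : IsPosition (inst c M) := by
  have hlen : (inst c M).2.2.2.1.length = (vs M).length := by
    simp [inst]
  refine ⟨?_, ?_, ?_⟩
  · rw [hlen]
    rintro ⟨x, y⟩ he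
    simp only [inst, List.mem_append, eL, eR] at he
    rcases he with he | he
    · obtain ⟨u, v, hu, hv, h, rfl, rfl⟩ := mem_edg.1 he
      refine ⟨nu_lt hu, nu_lt hv, fun h2 => ?_⟩
      have h3 := nu_inj hu hv h2
      rw [clL_code, tlL_code, Bool.or_eq_true] at h
      rcases h with h | h
      · exact cadj_ne (M := M) (p := true) h h3
      · exact tadj_ne h h3
    · obtain ⟨u, v, hu, hv, h, rfl, rfl⟩ := mem_edg.1 he
      refine ⟨nu_lt hu, nu_lt hv, fun h2 => ?_⟩
      have h3 := nu_inj hu hv h2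
      rw [crL_code, trL_code, Bool.or_eq_true] at h
      rcases h with h | h
      · exact cadj_ne (M := M) (p := false) h h3
      · exact tadj_ne h h3
  · intro e he
    simp only [inst] at he ⊢
    exact List.mem_append_left _ he
  · intro e he
    simp only [inst] at he ⊢
    exact List.mem_append_right _ he

end Pool.Agent.R538.EB
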