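import Pool.Agent.R538.EB.Enc

/-!
# Edge Blocking: the instance is computed in polynomial time
-/

namespace Pool.Agent.R538.EB

open Pool.Agent.NPC
open Pool.Agent.H820R2.SS
open Pool.Agent.NPC.ANN (Forces rl pm us up ok3 Bd poly_rl poly_pm poly_us poly_up poly_ok3
  uPoly_Bd)

variable {α : Type} [TEnc α]

theorem poly_okL {M : α → ARM} {z : α → Lb} (hM : NPC.Poly M) (hz : NPC.Poly z) :
    NPC.Poly (fun x => okL (M x) (z x)) := by
  unfold okL
  fun_prop

@[fun_prop]
theorem poly_clL {M : α → ARM} {z z' : α → Lb} (hM : NPC.Poly M) (hz : NPC.Poly z)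
    (hz' : NPC.Poly z') : NPC.Poly (fun x => clL (M x) (z x) (z' x)) := by
  unfold clL
  fun_prop

@[fun_prop]
theorem poly_crL {M : α → ARM} {z z' : α → Lb} (hM : NPC.Poly M) (hz : NPC.Poly z)
    (hz' : NPC.Poly z') : NPC.Poly (fun x => crL (M x) (z x) (z' x)) := by
  unfold crL
  fun_prop

@[fun_prop]
theorem poly_tlL {z z' : α → Lb} (hz : NPC.Poly z) (hz' : NPC.Poly z') :
    NPC.Poly (fun x => tlL (z x) (z' x)) := by
  unfold tlL
  fun_prop

@[fun_prop]
theorem poly_trL {z z' : α → Lb} (hz : NPC.Poly z) (hz' : NPC.Poly z') :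
    NPC.Poly (fun x => trL (z x) (z' x)) := by
  unfold trL
  fun_prop

theorem poly_vs : NPC.Poly (fun M : ARM => vs M) := by
  have h1 : NPC.Poly (fun M : ARM => List.range (Bd M)) := uPoly_Bd.range
  have h2 : NPC.Poly (fun M : ARM => ((List.range 12) ×ˢ ((List.range (Bd M)) ×ˢ
      ((List.range (Bd M)) ×ˢ (List.range (Bd M)))) : List Lb)) := by
    fun_prop
  unfold vs
  refine NPC.Poly.filter h2 ?_
  exact poly_okL (M := fun p : ARM × Lb => p.1) (z := fun p => p.2) (by fun_prop) (by fun_prop)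

theorem poly_edg {t : ARM → Lb → Lb → Bool}
    (ht : NPC.Poly (fun p : ARM × (Lb × Lb) => t p.1 p.2.1 p.2.2)) :
    NPC.Poly (fun M : ARM => edg (vs M) (t M)) := by
  have h0 := poly_vs
  have h1 : NPC.Poly (fun M : ARM => List.range (vs M).length) := (UPoly.length poly_vs).range
  have h2 : NPC.Poly (fun M : ARM => ((List.range (vs M).length) ×ˢ
      (List.range (vs M).length) : List (ℕ × ℕ))) := by
    fun_prop
  unfold edg
  refine NPC.Poly.filter h2 ?_
  have h3 : NPC.Poly (fun p : ARM × (ℕ × ℕ) => vs p.1) := h0.comp (NPC.Poly.fst NPC.Poly.id)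
  exact ht.comp (f := fun p : ARM × (ℕ × ℕ) => (p.1, ((vs p.1).getD p.2.1 (0, 0, 0, 0),
    (vs p.1).getD p.2.2 (0, 0, 0, 0)))) (by fun_prop)

theorem poly_inst (c : ℕ) : NPC.Poly (fun M : ARM => inst c M) := by
  have h0 := poly_vs
  have h1 : NPC.Poly (fun M : ARM => eL M) := by
    unfold eL
    refine poly_edg (t := fun M z z' => clL M z z' || tlL z z') ?_
    fun_prop
  have h2 : NPC.Poly (fun M : ARM => eR M) := by
    unfold eR
    refine poly_edg (t := fun M z z' => crL M z z' || trL z z') ?_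
    fun_prop
  unfold inst
  fun_prop

end Pool.Agent.R538.EB
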