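import Pool.Agent.Y669.EX.AndOr
import Pool.Agent.R538.EB.PolyI

/-!
# The outcome of Edge Blocking is decidable in exponential time, and completeness
-/

set_option autoImplicit false

namespace Pool.Agent.R538.EB.In

open Turing Pool.Agent.NPC Pool.Agent.R538.EB Pool.Agent.Y669.EX
open Pool.Agent.NPC.ANN (Forces)

/-- the occupations after a move -/
def newP (P : List Bool) (u v : ℕ) : List Bool :=
  (List.range P.length).map (fun x => if x = v then true
    else if x = u then false else P.getD x false)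

/-- the list of the positions after one move -/
def mvs (A : Desc) (P : Bool × List Bool) : List (Bool × List Bool) :=
  ((bif P.1 then A.2.1 else A.2.2.1).filter
    (fun e => P.2.getD e.1 false && !(P.2.getD e.2 false))).map (fun e => (!P.1, newP P.2 e.1 e.2))

theorem mem_mvs {A : Desc} {P Q : Bool × List Bool} : Q ∈ mvs A P ↔ ∃ u v,
    P.2.getD u false = true ∧ P.2.getD v false = false ∧
      ((u, v) ∈ bif P.1 then A.2.1 else A.2.2.1) ∧ Q = (!P.1, newP P.2 u v) := by
  unfold mvs
  rw [List.mem_map]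
  constructor
  · rintro ⟨⟨u, v⟩, he, rfl⟩
    rw [List.mem_filter, Bool.and_eq_true, Bool.not_eq_true'] at he
    exact ⟨u, v, he.2.1, he.2.2, he.1, rfl⟩
  · rintro ⟨u, v, h1, h2, h3, rfl⟩
    refine ⟨(u, v), ?_, rfl⟩
    rw [List.mem_filter, Bool.and_eq_true, Bool.not_eq_true']
    exact ⟨h3, h1, h2⟩

theorem length_newP (P : List Bool) (u v : ℕ) : (newP P u v).length = P.length := by
  simp [newP]

theorem getD_newP {P : List Bool} {u v : ℕ} (hv : v < P.length) :
    (fun x => (newP P u v).getD x false) =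
      Function.update (Function.update (fun x => P.getD x false) u false) v true := by
  funext x
  rw [Function.update_apply, Function.update_apply]
  unfold newP
  by_cases hx : x < P.length
  · rw [List.getD_eq_getElem _ _ (by simpa using hx)]
    simp
  · rw [List.getD_eq_default _ _ (by simpa using hx)]
    rw [if_neg (by omega)]
    split_ifs
    · rfl
    · rw [List.getD_eq_default _ _ (by omega)]

/-- All edges which can be used join vertices. -/
def InRange (A : Desc) (n : ℕ) : Prop :=
  (∀ e ∈ A.2.1, e.1 < n ∧ e.2 < n) ∧ ∀ e ∈ A.2.2.1, e.1 < n ∧ e.2 < n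

theorem InRange.get {A : Desc} {n : ℕ} (h : InRange A n) (p : Bool) {u v : ℕ}
    (he : (u, v) ∈ bif p then A.2.1 else A.2.2.1) : v < n := by
  cases p with
  | true => exact (h.1 _ he).2
  | false => exact (h.2 _ he).2

theorem forces_iff {A : Desc} {p : Bool} {P : List Bool} (hA : InRange A P.length) (w : Bool) :
    Forces (Mv A) w (p, fun v => P.getD v false) ↔ Forces (fun P Q => Q ∈ mvs A P) w (p, P) := by
  refine Forces.bisim_iff (R := fun (F : Bool × (ℕ → Bool)) (l : Bool × List Bool) =>
    F = (l.1, fun v => l.2.getD v false) ∧ l.2.length = P.length) ?_ ?_ ⟨rfl, rfl⟩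
  · rintro F l ⟨rfl, hl⟩ F' ⟨u, v, h1, h2, h3, rfl⟩
    refine ⟨(!l.1, newP l.2 u v), mem_mvs.2 ⟨u, v, h1, h2, h3, rfl⟩, ?_, ?_⟩
    · simp only
      rw [getD_newP (by rw [hl]; exact hA.get _ h3)]
    · simp only
      rw [length_newP, hl]
  · rintro F l ⟨rfl, hl⟩ l' hl'
    obtain ⟨u, v, h1, h2, h3, rfl⟩ := mem_mvs.1 hl'
    refine ⟨_, ⟨u, v, h1, h2, h3, rfl⟩, ?_, ?_⟩
    · simp only
      rw [getD_newP (by rw [hl]; exact hA.get _ h3)]
    · simp only
      rw [length_newP, hl]

/-- states: a tag and a position -/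
abbrev St : Type := ℕ × (Bool × List Bool)

/-- tags: `0` the other player wins, `1` the player to move wins, `2` one of the players wins -/
def ex (_ : Desc) (s : St) : Bool := decide (1 ≤ s.1)

/-- successors -/
def suc (A : Desc) (s : St) : List St :=
  if s.1 = 0 then (mvs A s.2).map (fun P => (1, P))
  else if s.1 = 1 then (mvs A s.2).map (fun P => (0, P))
  else [(0, s.2), (1, s.2)]

theorem acc_of_forces {A : Desc} {w : Bool} {P : Bool × List Bool}
    (h : Forces (fun P Q => Q ∈ mvs A P) w P) : Acc ex suc A (w.toNat, P) := by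
  induction h with
  | @win p q h hq ih =>
    refine Acc.some (s' := (0, q)) rfl ?_ ih
    simp [suc, h]
  | @lose p h ih =>
    refine Acc.all rfl ?_
    intro s' hs'
    simp only [suc, Bool.toNat_false, if_true, List.mem_map] at hs'
    obtain ⟨q, hq, rfl⟩ := hs'
    exact ih q hq

theorem forces_of_acc {A : Desc} {s : St} (h : Acc ex suc A s) :
    (s.1 = 0 → Forces (fun P Q => Q ∈ mvs A P) false s.2) ∧
    (s.1 = 1 → Forces (fun P Q => Q ∈ mvs A P) true s.2) ∧
    (s.1 = 2 → Forces (fun P Q => Q ∈ mvs A P) false s.2 ∨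
      Forces (fun P Q => Q ∈ mvs A P) true s.2) := by
  induction h with
  | @some s s' h hs h' ih =>
    refine ⟨fun h0 => ?_, fun h1 => ?_, fun h2 => ?_⟩
    · simp [ex, h0] at h
    · simp only [suc, h1, one_ne_zero, if_false, if_true, List.mem_map] at hs
      obtain ⟨q, hq, rfl⟩ := hs
      exact .win hq (ih.1 rfl)
    · have hs2 : s' = (0, s.2) ∨ s' = (1, s.2) := by simpa [suc, h2] using hs
      rcases hs2 with rfl | rfl
      · exact Or.inl (ih.1 rfl)
      · exact Or.inr (ih.2.1 rfl)
  | @all s h h' ih =>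
    have hs0 : s.1 = 0 := by
      simp only [ex, decide_eq_false_iff_not] at h
      omega
    refine ⟨fun h0 => .lose fun q hq => ?_, fun h1 => by omega, fun h2 => by omega⟩
    have := ih (1, q) (by simp [suc, h0, hq])
    exact this.2.1 rfl

theorem acc_iff (A : Desc) (P : Bool × List Bool) :
    (Acc ex suc A (0, P) ↔ Forces (fun P Q => Q ∈ mvs A P) false P) ∧
    (Acc ex suc A (1, P) ↔ Forces (fun P Q => Q ∈ mvs A P) true P) ∧
    (Acc ex suc A (2, P) ↔ Forces (fun P Q => Q ∈ mvs A P) false P ∨
      Forces (fun P Q => Q ∈ mvs A P) true P) := by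
  refine ⟨⟨fun h => (forces_of_acc h).1 rfl, fun h => acc_of_forces h⟩,
    ⟨fun h => (forces_of_acc h).2.1 rfl, fun h => acc_of_forces h⟩,
    ⟨fun h => (forces_of_acc h).2.2 rfl, ?_⟩⟩
  rintro (h | h)
  · exact Acc.some (s' := (0, P)) rfl (by simp [suc]) (acc_of_forces h)
  · exact Acc.some (s' := (1, P)) rfl (by simp [suc]) (acc_of_forces h)

/-! ### Sizes and polynomial time -/

/-- the length of the codes of the states -/
def mA (A : Desc) : ℕ := (10 * sz A + 20) * (10 * sz A + 20)

theorem mA_upoly : UPoly mA := by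
  have h : UPoly (fun A : Desc => 10 * sz A + 20) :=
    UPoly.add (UPoly.mul (UPoly.const 10) ((UPoly.length (NPC.Med.poly_bits (α := Desc))).congr
      fun a => by beta_reduce; rw [bits_length])) (UPoly.const 20)
  exact UPoly.mul h h

/-- the states which occur -/
def ok (A : Desc) (s : St) : Prop := s.1 ≤ 2 ∧ s.2.2.length = A.2.2.2.1.length

theorem suc_ok (A : Desc) (s : St) (hs : ok A s) : ∀ s' ∈ suc A s, ok A s' := by
  have key : ∀ Q ∈ mvs A s.2, Q.2.length = A.2.2.2.1.length := by
    intro Q hQ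
    obtain ⟨u, v, h1, h2, h3, rfl⟩ := mem_mvs.1 hQ
    rw [length_newP]
    exact hs.2
  intro s' hs'
  unfold suc at hs'
  split_ifs at hs' with c1 c2
  · obtain ⟨Q, hQ, rfl⟩ := List.mem_map.1 hs'
    exact ⟨by norm_num, key Q hQ⟩
  · obtain ⟨Q, hQ, rfl⟩ := List.mem_map.1 hs'
    exact ⟨by norm_num, key Q hQ⟩
  · simp only [List.mem_cons, List.not_mem_nil, or_false] at hs'
    rcases hs' with rfl | rfl
    · exact ⟨by norm_num, hs.2⟩
    · exact ⟨by norm_num, hs.2⟩

theorem sz_snd (A : Desc) : sz A.2.1 ≤ sz A ∧ sz A.2.2.1 ≤ sz A ∧ sz A.2.2.2.1 ≤ sz A := by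
  obtain ⟨a, b, c, d, e⟩ := A
  rw [sz_pair, sz_pair, sz_pair, sz_pair]
  simp only
  omega

theorem ok_bits (A : Desc) (s : St) (hs : ok A s) : (bits s).length + 1 ≤ mA A := by
  obtain ⟨t, p, P⟩ := s
  obtain ⟨h1, h2⟩ := hs
  simp only at h1 h2
  obtain ⟨e1, e2, e3⟩ := sz_snd A
  have h5 := length_lt_sz A.2.2.2.1
  have h6 : sz P ≤ P.length * (3 + 1) + 1 := sz_le_length_mul P _ fun o ho => sz_bool_le o
  have h7 : sz t ≤ 20 := by
    have h8 := sz_nat_le t
    have h9 : t.size ≤ t := by
      rw [Nat.size_le]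
      exact Nat.lt_two_pow_self
    omega
  have h8 := sz_bool_le p
  rw [bits_length, sz_pair, sz_pair]
  unfold mA
  nlinarith

theorem length_mvs (A : Desc) (P : Bool × List Bool) : (mvs A P).length ≤ sz A := by
  unfold mvs
  rw [List.length_map]
  refine (List.length_filter_le _ _).trans ?_
  obtain ⟨e1, e2, e3⟩ := sz_snd A
  cases P.1 with
  | true =>
    have := length_lt_sz A.2.1
    simp only [cond_true]
    omega
  | false =>
    have := length_lt_sz A.2.2.1
    simp only [cond_false]
    omega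

theorem ok_length (A : Desc) (s : St) (_ : ok A s) : (suc A s).length ≤ mA A := by
  have h := length_mvs A s.2
  unfold suc mA
  split_ifs
  · rw [List.length_map]
    nlinarith
  · rw [List.length_map]
    nlinarith
  · simp only [List.length_cons, List.length_nil]
    nlinarith

theorem poly_newP {α : Type} [TEnc α] {P : α → List Bool} {u v : α → ℕ}
    (hP : NPC.Poly P) (hu : NPC.Poly u) (hv : NPC.Poly v) :
    NPC.Poly (fun a => newP (P a) (u a) (v a)) := by
  unfold newP
  have h1 : NPC.Poly (fun a => List.range (P a).length) := (UPoly.length hP).range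
  fun_prop

theorem poly_mvs : NPC.Poly (fun p : Desc × (Bool × List Bool) => mvs p.1 p.2) := by
  unfold mvs
  refine NPC.Poly.map (F := fun (r : Desc × (Bool × List Bool))
    (e : ℕ × ℕ) => (!r.2.1, newP r.2.2 e.1 e.2)) ?_ ?_
  · refine NPC.Poly.filter (p := fun (r : Desc × (Bool × List Bool)) (e : ℕ × ℕ) =>
      r.2.2.getD e.1 false && !(r.2.2.getD e.2 false)) ?_ ?_
    · exact NPC.Poly.cond (by fun_prop) (by fun_prop) (by fun_prop)
    · fun_prop
  · exact NPC.Poly.pair (by fun_prop) (poly_newP (by fun_prop) (by fun_prop) (by fun_prop))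

theorem poly_ex : NPC.Poly (fun p : Desc × St => ex p.1 p.2) := by
  unfold ex
  fun_prop

theorem poly_suc : NPC.Poly (fun p : Desc × St => suc p.1 p.2) := by
  unfold suc
  have h : NPC.Poly (fun p : Desc × St => mvs p.1 p.2.2) :=
    poly_mvs.comp (f := fun p : Desc × St => (p.1, p.2.2)) (by fun_prop)
  fun_prop

/-! ### The test for positions -/

/-- the test for correct descriptions -/
def posB (A : Desc) : Bool :=
  (A.1.all (fun e => decide (e.1 < A.2.2.2.1.length) && (decide (e.2 < A.2.2.2.1.length) &&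
    !(decide (e.1 = e.2))))) &&
  (A.2.1.all (fun e => decide (e ∈ A.1)) && A.2.2.1.all (fun e => decide (e ∈ A.1)))

theorem posB_iff (A : Desc) : posB A = true ↔ IsPosition A := by
  unfold posB IsPosition
  simp only [Bool.and_eq_true, List.all_eq_true, decide_eq_true_eq, Bool.not_eq_true',
    decide_eq_false_iff_not]

theorem poly_posB : NPC.Poly posB := by
  unfold posB
  refine NPC.Poly.and (by fun_prop) (NPC.Poly.and (by fun_prop) (by fun_prop))

theorem inRange_of {A : Desc} (hA : IsPosition A) : InRange A A.2.2.2.1.length :=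
  ⟨fun e he => ⟨(hA.1 e (hA.2.1 e he)).1, (hA.1 e (hA.2.1 e he)).2.1⟩,
    fun e he => ⟨(hA.1 e (hA.2.2 e he)).1, (hA.1 e (hA.2.2 e he)).2.1⟩⟩

theorem start_forces {A : Desc} (hA : IsPosition A) (w : Bool) :
    Forces (Mv A) w (EB.start A) ↔
      Forces (fun P Q => Q ∈ mvs A P) w (A.2.2.2.2, A.2.2.2.1) :=
  forces_iff (inRange_of hA) w

/-- the coded position -/
noncomputable def rd (x : List Bool) : Desc := (unbits Desc x).getD ([], [], [], [], false)

theorem poly_rd : NPC.Poly rd :=
  Poly.optGetD (g := fun _ => ([], [], [], [], false)) (poly_unbits (α := Desc))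
    (NPC.Poly.const _)

theorem exptime_tag (t : ℕ) (ht : t ≤ 2) (neg : Bool) :
    InEXPB (lang (fun A : Desc => IsPosition A ∧
      (Acc ex suc A (t, (A.2.2.2.2, A.2.2.2.1)) ↔ neg = false))) := by
  have hb : NPC.Poly (fun x : List Bool => (unbits Desc x).isSome && posB (rd x)) :=
    NPC.Poly.and (NPC.Poly.isSome poly_unbits) (poly_posB.comp poly_rd)
  have hst : NPC.Poly (fun A : Desc => ((t, (A.2.2.2.2, A.2.2.2.1)) : St)) := by fun_prop
  refine inEXPB_of_acc (ok := ok) mA_upoly poly_ex poly_suc hst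
    poly_rd hb ?_ suc_ok ok_bits ok_length neg ?_
  · intro x hx
    exact ⟨ht, rfl⟩
  · intro x
    rw [mem_lang_iff, Bool.and_eq_true, posB_iff]
    constructor
    · rintro ⟨A, h1, h2, h3⟩
      have h4 : rd x = A := by
        unfold rd
        rw [h1]
        rfl
      rw [h4, h1]
      exact ⟨⟨rfl, h2⟩, h3⟩
    · rintro ⟨⟨h1, h2⟩, h3⟩
      obtain ⟨A, hA⟩ := Option.isSome_iff_exists.1 h1
      have h4 : rd x = A := by
        unfold rd
        rw [hA]
        rfl
      rw [h4] at h2 h3
      exact ⟨A, hA, h2, h3⟩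

theorem lang_congr {α : Type} [TEnc α] {P Q : α → Prop} (h : ∀ a, P a ↔ Q a) :
    lang P = lang Q := by
  congr 1
  funext a
  exact propext (h a)

/-- The three outcomes. -/
theorem exp_of {W : Desc → Prop} (hW : W = MoverWins ∨ W = OtherWins ∨ W = Drawn) :
    InEXPB (lang (fun A : Desc => IsPosition A ∧ W A)) := by
  rcases hW with rfl | rfl | rfl
  · rw [lang_congr (Q := fun A : Desc => IsPosition A ∧
      (Acc ex suc A (1, (A.2.2.2.2, A.2.2.2.1)) ↔ false = false)) fun A =>
        and_congr_right fun hA => ?_]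
    · exact exptime_tag 1 (by norm_num) false
    · unfold MoverWins
      rw [start_forces hA, (acc_iff A _).2.1]
      simp
  · rw [lang_congr (Q := fun A : Desc => IsPosition A ∧
      (Acc ex suc A (0, (A.2.2.2.2, A.2.2.2.1)) ↔ false = false)) fun A =>
        and_congr_right fun hA => ?_]
    · exact exptime_tag 0 (by norm_num) false
    · unfold OtherWins
      rw [start_forces hA, (acc_iff A _).1]
      simp
  · rw [lang_congr (Q := fun A : Desc => IsPosition A ∧
      (Acc ex suc A (2, (A.2.2.2.2, A.2.2.2.1)) ↔ true = false)) fun A =>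
        and_congr_right fun hA => ?_]
    · exact exptime_tag 2 le_rfl true
    · unfold Drawn MoverWins OtherWins
      rw [start_forces hA, start_forces hA, (acc_iff A _).2.2]
      simp only [Bool.true_eq_false, iff_false, not_or]
      tauto

open Pool.Agent.H820R2.SS in
/-- Hardness. -/
theorem hard_of {W : Desc → Prop} (hW : W = MoverWins ∨ W = OtherWins ∨ W = Drawn)
    {L : Set (List Bool)} (hL : InEXPTIME L) :
    Reduces L (lang (fun A : Desc => IsPosition A ∧ W A)) := by
  rcases hW with rfl | rfl | rfl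
  · obtain ⟨f, h1, h2, h3⟩ := ARM578.exptime_arm (L := L) hL
    refine ⟨fun x => bits (inst 0 (f x)), PC.toPolyTime_bits (poly_inst 0) f h1, fun x => ?_⟩
    rw [bits_mem_lang]
    rw [and_iff_right (inst_isPosition 0 (f x)), MoverWins,
      inst_forces (v0 := .G) rfl rfl, h3 x, ARMAcc]
    exact (win_G (h2 x) _).symm
  · obtain ⟨f, h1, h2, h3⟩ := ARM578.exptime_arm (L := L) hL
    refine ⟨fun x => bits (inst 1 (f x)), PC.toPolyTime_bits (poly_inst 1) f h1, fun x => ?_⟩
    rw [bits_mem_lang]
    rw [and_iff_right (inst_isPosition 1 (f x)), OtherWins,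
      inst_forces (v0 := .I) rfl rfl, h3 x, ARMAcc]
    exact (lose_I (h2 x) _).symm
  · obtain ⟨f, h1, h2, h3⟩ := ARM578.exptime_arm_compl (L := L) hL
    refine ⟨fun x => bits (inst 0 (f x)), PC.toPolyTime_bits (poly_inst 0) f h1, fun x => ?_⟩
    rw [bits_mem_lang]
    rw [and_iff_right (inst_isPosition 0 (f x)), Drawn, MoverWins, OtherWins,
      inst_forces (v0 := .G) rfl rfl, inst_forces (v0 := .G) rfl rfl]
    have h4 := h3 x
    rw [ARMAcc, ← win_G (h2 x)] at h4
    rw [← not_iff_not, h4]
    constructor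
    · intro h h'
      exact h'.1 h
    · intro h
      by_contra h'
      exact h ⟨h', not_lose_G _⟩

end Pool.Agent.R538.EB.In
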