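import Pool.Agent.R538.EB.Vtx

/-!
# Edge Blocking: parity, and the simulation
-/

namespace Pool.Agent.R538.EB

open Pool.Agent.H820R2.SS Finset
open Pool.Agent.NPC.ANN (Forces rl pm us up ok3 ok3_iff rl_mem pm_mem up_lt upd_take upd_nil
  upd_take_update ok3_pred)

variable {M : ARM}

/-- lifted holes -/
def isq (o : Option Y) : ℕ := if o = some .q then 1 else 0

/-- potential of a hole -/
def phi : Option Y → ℕ
  | some (.p _) => 1
  | some .q => 2
  | _ => 0

/-- sums over the registers -/
def sm (w : Option Y → ℕ) (n : ℕ) (ρ : ℕ → Option Y) : ℕ := ∑ j ∈ range n, w (ρ j)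

theorem sm_update (w : Option Y → ℕ) {n j : ℕ} (hj : j < n) (ρ : ℕ → Option Y) (y : Option Y) :
    sm w n (Function.update ρ j y) + w (ρ j) = sm w n ρ + w y := by
  unfold sm
  have h1 := Finset.sum_erase_add (range n) (fun i => w (ρ i)) (mem_range.2 hj)
  have h2 := Finset.sum_erase_add (range n) (fun i => w (Function.update ρ j y i))
    (mem_range.2 hj)
  have h3 : ∑ i ∈ (range n).erase j, w (Function.update ρ j y i) =
      ∑ i ∈ (range n).erase j, w (ρ i) := by
    refine Finset.sum_congr rfl fun i hi => ?_
    rw [Function.update_of_ne (Finset.ne_of_mem_erase hi)]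
  simp only [Function.update_self] at h2
  rw [← h1, ← h2, h3]
  ring

theorem exists_q {n : ℕ} {ρ : ℕ → Option Y} (h : 0 < sm isq n ρ) : ∃ j < n, ρ j = some .q := by
  by_contra hno
  push Not at hno
  have : sm isq n ρ = 0 := by
    refine Finset.sum_eq_zero fun j hj => ?_
    rw [isq, if_neg (hno j (mem_range.1 hj))]
  omega

/-- lowering a lifted hole, by any player -/
theorem reply {c : Option V} {ρ : ℕ → Option Y} (p : Bool) (h : 0 < sm isq M.1.length ρ) :
    ∃ ρ', SStep M (p, c, ρ) (!p, c, ρ') ∧
      sm isq M.1.length ρ' + 1 = sm isq M.1.length ρ ∧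
      sm phi M.1.length ρ' < sm phi M.1.length ρ ∧
      (p = true → sm phi M.1.length ρ' + 2 = sm phi M.1.length ρ) := by
  obtain ⟨j, hj, hq⟩ := exists_q h
  cases p with
  | true =>
    refine ⟨Function.update ρ j (some .t), .rg hj rfl hq, ?_, ?_, ?_⟩
    · have := sm_update isq hj ρ (some .t)
      rw [hq] at this
      simpa [isq] using this
    · have := sm_update phi hj ρ (some .t)
      rw [hq] at this
      simp only [phi] at this
      omega
    · intro _
      have := sm_update phi hj ρ (some .t)
      rw [hq] at this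
      simpa only [phi, Nat.add_zero] using this
  | false =>
    refine ⟨Function.update ρ j (some (.p false)), .rg hj rfl hq, ?_, ?_, by simp⟩
    · have := sm_update isq hj ρ (some (.p false))
      rw [hq] at this
      simpa [isq] using this
    · have := sm_update phi hj ρ (some (.p false))
      rw [hq] at this
      simp only [phi] at this
      omega

/-- The control token is out of play: the player to move loses if the number of lifted holes is
even. -/
theorem pure_even : ∀ (N : ℕ) (p : Bool) (ρ : ℕ → Option Y),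
    sm phi M.1.length ρ ≤ N → sm isq M.1.length ρ % 2 = 0 →
    Forces (SStep M) false (p, none, ρ) := by
  intro N
  induction N using Nat.strong_induction_on with
  | _ N ih =>
    intro p ρ hN he
    refine .lose fun s' hs' => ?_
    cases hs' with
    | @rg _ _ j y y' _ hj h ho =>
      have hu := sm_update isq hj ρ (some y')
      have hp := sm_update phi hj ρ (some y')
      rw [ho] at hu hp
      have h1 : (isq (some y) + isq (some y') = 1) := by
        cases p <;> cases y <;> cases y' <;> simp_all [radj, isq]
      obtain ⟨ρ', h3, h4, h5, h6⟩ := reply (M := M) (c := none)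
        (ρ := Function.update ρ j (some y')) (!p) (by omega)
      rw [Bool.not_not] at h3
      have h7 : sm phi M.1.length ρ' < sm phi M.1.length ρ := by
        cases p with
        | true =>
          have h8 : phi (some y') ≤ phi (some y) := by
            cases y <;> cases y' <;> simp_all [radj, phi]
          omega
        | false =>
          have h8 := h6 rfl
          have h9 : phi (some y') ≤ phi (some y) + 1 := by
            cases y <;> cases y' <;> simp_all [radj, phi]
          omega
      exact .win h3 (ih (N - 1) (by omega) _ _ (by omega) (by omega))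

theorem pure_lose {p : Bool} {ρ : ℕ → Option Y} (he : sm isq M.1.length ρ % 2 = 0) :
    Forces (SStep M) false (p, none, ρ) :=
  pure_even _ p ρ le_rfl he

/-- all registers hold values -/
def cf (M : ARM) (σ : ℕ → Bool) : ℕ → Option Y := fun j =>
  if j < M.1.length then some (.p (σ j)) else none

/-- register `j` is lifted -/
def lf (M : ARM) (σ : ℕ → Bool) (j : ℕ) : ℕ → Option Y := Function.update (cf M σ) j (some .q)

theorem cf_of {σ : ℕ → Bool} {j : ℕ} (hj : j < M.1.length) : cf M σ j = some (.p (σ j)) := by
  rw [cf, if_pos hj]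

theorem cf_eq {σ : ℕ → Bool} {j : ℕ} {y : Y} (h : cf M σ j = some y) : y = .p (σ j) := by
  unfold cf at h
  split_ifs at h
  exact (Option.some.inj h).symm

theorem nq_cf (σ : ℕ → Bool) : sm isq M.1.length (cf M σ) = 0 := by
  refine Finset.sum_eq_zero fun j hj => ?_
  rw [cf_of (mem_range.1 hj), isq]
  simp

theorem nq_lf {σ : ℕ → Bool} {j : ℕ} (hj : j < M.1.length) :
    sm isq M.1.length (lf M σ j) = 1 := by
  have h := sm_update isq hj (cf M σ) (some .q)
  rw [nq_cf σ, cf_of hj] at h
  show sm isq M.1.length (Function.update (cf M σ) j (some .q)) = 1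
  simpa [isq] using h

theorem lf_self {σ : ℕ → Bool} {j : ℕ} : lf M σ j j = some .q := by simp [lf]

theorem lf_ne {σ : ℕ → Bool} {j i : ℕ} (h : i ≠ j) : lf M σ j i = cf M σ i := by simp [lf, h]

theorem lf_set {σ : ℕ → Bool} {j : ℕ} (hj : j < M.1.length) (b : Bool) :
    Function.update (lf M σ j) j (some (.p b)) = cf M (Function.update σ j b) := by
  funext i
  simp only [lf, Function.update_apply, cf]
  split_ifs with h1 h2 h3 <;> simp_all

/-- Filling a hole with the control token. -/
theorem win_cap {p : Bool} {v : V} {j : ℕ} {y : Y} {ρ : ℕ → Option Y} (hv : ok M v = true)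
    (hj : j < M.1.length) (h : cadj M p v (.reg j y) = true) (ho : ρ j = some y)
    (hp : (sm isq M.1.length ρ + isq (some y)) % 2 = 0) :
    Forces (SStep M) true (p, some v, ρ) := by
  refine .win (.cap hv hj h ho) (pure_lose ?_)
  have hu := sm_update isq hj ρ none
  rw [ho] at hu
  have h1 : isq none = 0 := rfl
  omega

section US

variable {r i k : ℕ} {p : Bool}

theorem ctrl_U {v' : V} (hc : ctrl v' = true) (h : cadj M p (.U r i k) v' = true) :
    p = true ∧ v' = .S r i k := by
  cases p <;> cases v' <;> simp_all [cadj, cl, cr, ctrl]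

theorem ctrl_S {v' : V} (hc : ctrl v' = true) (h : cadj M p (.S r i k) v' = true) :
    p = true ∧ v' = .Z r i k := by
  cases p <;> cases v' <;> simp_all [cadj, cl, cr, ctrl]

theorem ctrl_Z {v' : V} (hc : ctrl v' = true) (h : cadj M p (.Z r i k) v' = true) :
    p = false ∧ ∃ k', k = k' + 1 ∧ v' = .X r i k' := by
  cases p <;> cases v' <;> simp_all [cadj, cl, cr, ctrl]

theorem ctrl_R {v' : V} (hc : ctrl v' = true) (h : cadj M p (.R r) v' = true) :
    p = false ∧ ∃ i, v' = .X r i (us M r i).length := by
  cases p <;> cases v' <;> simp_all [cadj, cl, cr, ctrl]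

end US

/-- abbreviation -/
abbrev N (M : ARM) (s : Bool × St) : Prop := Forces (SStep M) true s

/-- abbreviation -/
abbrev P (M : ARM) (s : Bool × St) : Prop := Forces (SStep M) false s

/-- Right moves from a control vertex at which Left punishes every lift, and all registers hold
values. -/
theorem step_right {v : V} {σ : ℕ → Bool} {s' : Bool × St}
    (hk : ok M v = true) (hl : ∀ j, cl M v (.reg j .q) = true)
    (hun : ∀ j y, cr M v (.reg j y) = true → cf M σ j ≠ some y)
    (h : SStep M (false, some v, cf M σ) s') : N M s' ∨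
      (∃ v', ctrl v' = true ∧ ok M v' = true ∧ cr M v v' = true ∧
        s' = (true, some v', cf M σ)) := by
  cases h with
  | @ctl _ _ v' _ h1 h2 h hc => exact Or.inr ⟨v', hc, h2, h, rfl⟩
  | @cap _ _ j y _ h1 h2 h ho => exact absurd ho (hun j y h)
  | @rg _ _ j y y' _ hj h ho =>
    left
    have hy := cf_eq ho
    subst hy
    have hy' : y' = .q := by cases y' <;> simp_all [radj]
    subst hy'
    refine win_cap (j := j) (y := .q) hk hj (hl j) (Function.update_self ..) ?_
    have := nq_lf (M := M) (σ := σ) hj
    unfold lf at this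
    rw [this]
    rfl

/-- Left moves from a control vertex when all registers hold values. -/
theorem step_left {v : V} {σ : ℕ → Bool} {s' : Bool × St}
    (hun : ∀ j y, cl M v (.reg j y) = true → cf M σ j ≠ some y)
    (h : SStep M (true, some v, cf M σ) s') :
      (∃ v', ctrl v' = true ∧ ok M v' = true ∧ cl M v v' = true ∧
        s' = (false, some v', cf M σ)) := by
  cases h with
  | @ctl _ _ v' _ h1 h2 h hc => exact ⟨v', hc, h2, h, rfl⟩
  | @cap _ _ j y _ h1 h2 h ho => exact absurd ho (hun j y h)
  | @rg _ _ j y y' _ hj h ho =>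
    have hy := cf_eq ho
    subst hy
    simp [radj] at h

section upd

variable {r i k : ℕ}

theorem okU (h : ok3 M r i k = true) (h0 : 0 < k) : ok M (.U r i k) = true := by
  simp [ok, h, h0]

theorem okS (h : ok3 M r i k = true) (h0 : 0 < k) : ok M (.S r i k) = true := by
  simp [ok, h, h0]

theorem okZ (h : ok3 M r i k = true) (h0 : 0 < k) : ok M (.Z r i k) = true := by
  simp [ok, h, h0]

/-- the register is set to the wrong value -/
theorem wrong {σ : ℕ → Bool} (hM : ARMPr M) (h : ok3 M r i k = true) (h0 : 0 < k)
    (hne : σ (up M r i k).1 ≠ (up M r i k).2) : N M (true, some (.S r i k), cf M σ) := by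
  have hj := up_lt hM h h0
  refine win_cap (j := (up M r i k).1) (y := .p (σ (up M r i k).1)) (okS h h0) hj ?_
    (cf_of hj) ?_
  · have : σ (up M r i k).1 = !(up M r i k).2 := by
      revert hne
      cases σ (up M r i k).1 <;> cases (up M r i k).2 <;> simp
    simp [cadj, cl, this]
  · rw [nq_cf]
    simp [isq]

/-- A dead region: Left wins at `S`. -/
theorem dead {ρ : ℕ → Option Y} {j' : ℕ} (h : ok3 M r i k = true) (h0 : 0 < k)
    (hj' : j' < M.1.length) (ho : ρ j' = some .t) (hq : sm isq M.1.length ρ % 2 = 1) :
    P M (false, some (.S r i k), ρ) := by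
  refine .lose fun s' hs' => ?_
  cases hs' with
  | @ctl _ _ v' _ h1 h2 h hc =>
    have := (ctrl_S hc h).1
    simp at this
  | @cap _ _ j y _ h1 h2 h ho' => simp [cadj, cr] at h
  | @rg _ _ j y y' _ hj h' ho' =>
    have hne : j ≠ j' := by
      rintro rfl
      rw [ho] at ho'
      have := Option.some.inj ho'
      subst this
      simp [radj] at h'
    refine win_cap (j := j') (y := .t) (okS h h0) hj' (by simp [cadj, cl]) ?_ ?_
    · rw [Function.update_of_ne (Ne.symm hne)]
      exact ho
    · have hu := sm_update isq hj ρ (some y')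
      rw [ho'] at hu
      have h1 : (isq (some y) + isq (some y') = 1) := by
        cases y <;> cases y' <;> simp_all [radj, isq]
      have h2 : isq (some .t) = 0 := rfl
      omega

/-- the lifted register at `S`, Right has to set it -/
theorem lose_S {σ : ℕ → Bool} (hM : ARMPr M) (h : ok3 M r i k = true) (h0 : 0 < k)
    (hS : N M (true, some (.S r i k), cf M (Function.update σ (up M r i k).1 (up M r i k).2))) :
    P M (false, some (.S r i k), lf M σ (up M r i k).1) := by
  have hj := up_lt hM h h0
  refine .lose fun s' hs' => ?_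
  cases hs' with
  | @ctl _ _ v' _ h1 h2 h hc =>
    have := (ctrl_S hc h).1
    simp at this
  | @cap _ _ j y _ h1 h2 h ho' => simp [cadj, cr] at h
  | @rg _ _ j' y y' _ hj' h' ho' =>
    by_cases hjj : j' = (up M r i k).1
    · subst hjj
      rw [lf_self] at ho'
      have hy := Option.some.inj ho'
      subst hy
      cases y' with
      | p b =>
        rw [lf_set hj]
        by_cases hb : b = (up M r i k).2
        · rw [hb]
          exact hS
        · exact wrong hM h h0 (by simpa using hb)
      | q => simp [radj] at h'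
      | t => simp [radj] at h'
    · rw [lf_ne hjj] at ho'
      have hy := cf_eq ho'
      subst hy
      have hy' : y' = .q := by cases y' <;> simp_all [radj]
      subst hy'
      refine .win (.rg (j := j') (y := .q) (y' := .t) hj' rfl (Function.update_self ..)) ?_
      rw [Function.update_idem]
      refine dead h h0 hj' (Function.update_self ..) ?_
      have hu := sm_update isq hj' (lf M σ (up M r i k).1) (some .t)
      rw [nq_lf hj, lf_ne hjj, cf_of hj'] at hu
      have h1 : isq (some (.p (σ j'))) = 0 := rfl
      have h2 : isq (some .t) = 0 := rfl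
      omega

/-- the register can be lifted at `U` -/
theorem lose_U {σ : ℕ → Bool} (hM : ARMPr M) (h : ok3 M r i k = true) (h0 : 0 < k)
    (hS : N M (true, some (.S r i k), cf M (Function.update σ (up M r i k).1 (up M r i k).2))) :
    P M (false, some (.U r i k), cf M σ) := by
  have hj := up_lt hM h h0
  refine .lose fun s' hs' => ?_
  cases hs' with
  | @ctl _ _ v' _ h1 h2 h hc =>
    have := (ctrl_U hc h).1
    simp at this
  | @cap _ _ j y _ h1 h2 h' ho' =>
    have hy := cf_eq ho'
    subst hy
    simp [cadj, cr] at h'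
  | @rg _ _ j' y y' _ hj' h' ho' =>
    have hy := cf_eq ho'
    subst hy
    have hy' : y' = .q := by cases y' <;> simp_all [radj]
    subst hy'
    by_cases hjj : j' = (up M r i k).1
    · subst hjj
      refine .win (q := (false, some (.S r i k), lf M σ (up M r i k).1))
        (.ctl (okU h h0) (okS h h0) (by simp [cadj, cl]) rfl) ?_
      exact lose_S hM h h0 hS
    · refine win_cap (j := j') (y := .q) (okU h h0) hj' (by simp [cadj, cl, hjj])
        (Function.update_self ..) ?_
      have := nq_lf (M := M) (σ := σ) hj'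
      unfold lf at this
      rw [this]
      rfl

theorem chain (hM : ARMPr M) {σ : ℕ → Bool} (h : ok3 M r i k = true)
    (hX : N M (true, some (.X r i 0), cf M (upd σ ((us M r i).take k)))) :
    N M (true, some (.X r i k), cf M σ) := by
  induction k generalizing σ with
  | zero =>
    rw [List.take_zero, upd_nil] at hX
    exact hX
  | succ k ih =>
    have h0 : 0 < k + 1 := Nat.succ_pos k
    have hk := ok3_pred h
    rw [upd_take h h0, Nat.add_sub_cancel] at hX
    have h1 := ih hk hX
    -- the vertex `Z`
    have h2 : P M (false, some (.Z r i (k + 1)),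
        cf M (Function.update σ (up M r i (k + 1)).1 (up M r i (k + 1)).2)) := by
      refine .lose fun s' hs' => ?_
      rcases step_right (v := .Z r i (k + 1)) (okZ h h0) (fun j => rfl)
        (fun j y hh => by simp [cr] at hh) hs' with h3 | ⟨v', h3, h4, h5, rfl⟩
      · exact h3
      · obtain ⟨-, k', h6, rfl⟩ := ctrl_Z (p := false) h3 h5
        have h7 : k' = k := by omega
        subst h7
        exact h1
    have h3 : N M (true, some (.S r i (k + 1)),
        cf M (Function.update σ (up M r i (k + 1)).1 (up M r i (k + 1)).2)) :=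
      .win (.ctl (okS h h0) (okZ h h0) (by simp [cadj, cl]) rfl) h2
    exact .win (.ctl (v' := .U r i (k + 1)) (by simpa [ok] using h) (okU h h0)
      (by simp [cadj, cl]) rfl) (lose_U hM h h0 h3)

end upd

theorem ok_R {r : ℕ} (h : r < M.2.2.length) : ok M (.R r) = true := by simpa [ok] using h

theorem acc (hM : ARMPr M) {c : ℕ} {ρ : ℕ → Bool} (h : Der M.2.2 c ρ) : ∀ v : V,
    (v = .G ∧ c = M.2.1) ∨ (∃ r i, v = .X r i 0 ∧ ok3 M r i 0 = true ∧ c = (pm M r i).1) →
    N M (true, some v, cf M ρ) := by
  induction h with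
  | mk rule ρ hr hg hp ih =>
    intro v hv
    obtain ⟨r, hr1, hr2⟩ := List.getElem_of_mem hr
    have hrl : rl M r = rule := by
      unfold rl
      rw [List.getD_eq_getElem _ _ hr1, hr2]
    have hun : ∀ j y, cr M (.R r) (.reg j y) = true → cf M ρ j ≠ some y := by
      intro j y hh h9
      have h10 := cf_eq h9
      subst h10
      simp only [cr, decide_eq_true_eq] at hh
      have h11 := hg _ (by rw [← hrl]; exact hh)
      simp at h11
    have hlose : P M (false, some (.R r), cf M ρ) := by
      refine .lose fun s' hs' => ?_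
      rcases step_right (v := .R r) (ok_R hr1) (fun j => rfl) hun hs' with
        h3 | ⟨v', h3, h4, h5, rfl⟩
      · exact h3
      · obtain ⟨-, i, rfl⟩ := ctrl_R (p := false) h3 h5
        have h6 : ok3 M r i (us M r i).length = true := by simpa [ok] using h4
        have h6' := ok3_iff.1 h6
        have h7 : pm M r i ∈ rule.2.2 := by
          rw [← hrl]
          exact pm_mem h6'.2.1
        refine chain hM h6 ?_
        rw [List.take_length]
        exact ih _ h7 _ (Or.inr ⟨r, i, rfl, by rw [ok3_iff]; omega, rfl⟩)
    rcases hv with ⟨rfl, hc⟩ | ⟨r', i', rfl, hk, hc⟩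
    · exact .win (.ctl (v' := .R r) rfl (ok_R hr1) (by simp [cadj, cl, hrl, hc]) rfl) hlose
    · exact .win (.ctl (v' := .R r) (by simpa [ok] using hk) (ok_R hr1)
        (by simp [cadj, cl, hrl, hc]) rfl) hlose

/-! ### Rejection -/

/-- positions at which Left cannot win -/
inductive NA (M : ARM) : Bool × St → Prop
  | G {σ : ℕ → Bool} (h : ¬ Der M.2.2 M.2.1 σ) : NA M (true, some .G, cf M σ)
  | X {r i k : ℕ} {σ : ℕ → Bool} (hk : ok3 M r i k = true)
      (h : ¬ Der M.2.2 (pm M r i).1 (upd σ ((us M r i).take k))) :
      NA M (true, some (.X r i k), cf M σ)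
  | U {r i k : ℕ} {σ : ℕ → Bool} (hk : ok3 M r i k = true) (h0 : 0 < k)
      (h : ¬ Der M.2.2 (pm M r i).1 (upd σ ((us M r i).take k))) :
      NA M (true, some (.U r i k), lf M σ (up M r i k).1)
  | S {r i k : ℕ} {σ : ℕ → Bool} (hk : ok3 M r i k = true) (h0 : 0 < k)
      (hb : σ (up M r i k).1 = (up M r i k).2)
      (h : ¬ Der M.2.2 (pm M r i).1 (upd σ ((us M r i).take k))) :
      NA M (true, some (.S r i k), cf M σ)
  | B {σ : ℕ → Bool} : NA M (true, some .B, cf M σ)

/-- positions at which Right does not lose -/
inductive NB (M : ARM) : Bool × St → Prop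
  | R {r i : ℕ} {σ : ℕ → Bool} (hr : r < M.2.2.length)
      (hg : ∀ g ∈ (rl M r).2.1, σ g.1 = g.2) (hi : i < (rl M r).2.2.length)
      (h : ¬ Der M.2.2 (pm M r i).1 (upd σ (us M r i))) : NB M (false, some (.R r), cf M σ)
  | U {r i k : ℕ} {σ : ℕ → Bool} (hk : ok3 M r i k = true) (h0 : 0 < k)
      (h : ¬ Der M.2.2 (pm M r i).1 (upd σ ((us M r i).take k))) :
      NB M (false, some (.U r i k), cf M σ)
  | S {r i k : ℕ} {σ : ℕ → Bool} (hk : ok3 M r i k = true) (h0 : 0 < k)
      (h : ¬ Der M.2.2 (pm M r i).1 (upd σ ((us M r i).take k))) :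
      NB M (false, some (.S r i k), lf M σ (up M r i k).1)
  | Z {r i k : ℕ} {σ : ℕ → Bool} (hk : ok3 M r i (k + 1) = true)
      (h : ¬ Der M.2.2 (pm M r i).1 (upd σ ((us M r i).take k))) :
      NB M (false, some (.Z r i (k + 1)), cf M σ)
  | A {σ : ℕ → Bool} : NB M (false, some .A, cf M σ)

/-- entering a rule -/
theorem enter_R {c : ℕ} {σ : ℕ → Bool} (hM : ARMPr M) (hc : ¬ Der M.2.2 c σ) {r : ℕ}
    (hr : r < M.2.2.length) (hh : (rl M r).1 = c) :
    N M (false, some (.R r), cf M σ) ∨ NB M (false, some (.R r), cf M σ) := by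
  by_cases hg : ∀ g ∈ (rl M r).2.1, σ g.1 = g.2
  · right
    by_contra hno
    apply hc
    rw [← hh]
    refine .mk (rl M r) σ (rl_mem hr) hg fun s hs => ?_
    by_contra hs'
    apply hno
    obtain ⟨i, hi, hi'⟩ := List.getElem_of_mem hs
    have : pm M r i = s := by
      unfold pm
      rw [List.getD_eq_getElem _ _ hi, hi']
    refine .R hr hg hi ?_
    unfold us
    rw [this]
    exact hs'
  · left
    push Not at hg
    obtain ⟨g, hg1, hg2⟩ := hg
    have hj := (hM _ (rl_mem hr)).1 g hg1
    refine win_cap (j := g.1) (y := .p (σ g.1)) (ok_R hr) hj ?_ (cf_of hj) ?_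
    · have : σ g.1 = !g.2 := by
        revert hg2
        cases σ g.1 <;> cases g.2 <;> simp
      simp only [cadj, cr, cond_false, this, Bool.not_not, decide_eq_true_eq]
      exact hg1
    · rw [nq_cf]
      simp [isq]

theorem closeA (hM : ARMPr M) : ∀ s, NA M s → ∀ s', SStep M s s' → N M s' ∨ NB M s' := by
  intro s hs s' hs'
  cases hs with
  | @G σ h =>
    obtain ⟨v', h1, h2, h3, rfl⟩ := step_left (v := .G) (fun j y hh => by simp [cl] at hh) hs'
    cases v' with
    | A => exact Or.inr .A
    | R r => exact enter_R hM h (by simpa [ok] using h2) (by simpa [cl] using h3)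
    | _ => simp [cl, ctrl] at h1 h3
  | @X r i k σ hk h =>
    obtain ⟨v', h1, h2, h3, rfl⟩ := step_left (v := .X r i k)
      (fun j y hh => by simp [cl] at hh) hs'
    cases v' with
    | U r' i' k' =>
      simp only [cl, Bool.and_eq_true, decide_eq_true_eq] at h3
      obtain ⟨rfl, rfl, rfl⟩ := h3
      simp only [ok, Bool.and_eq_true, decide_eq_true_eq] at h2
      exact Or.inr (.U hk h2.1 h)
    | R r' =>
      simp only [cl, Bool.and_eq_true, decide_eq_true_eq] at h3
      obtain ⟨rfl, h4⟩ := h3
      rw [List.take_zero, upd_nil] at h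
      exact enter_R hM h (by simpa [ok] using h2) h4
    | _ => simp [cl, ctrl] at h1 h3
  | @U r i k σ hk h0 h =>
    have hj := up_lt hM hk h0
    cases hs' with
    | @ctl _ _ v' _ h1 h2 h' hc =>
      obtain ⟨-, rfl⟩ := ctrl_U hc h'
      exact Or.inr (.S hk h0 h)
    | @cap _ _ j y _ h1 h2 h' ho' =>
      exfalso
      cases y with
      | q =>
        have hjj : j ≠ (up M r i k).1 := by simpa [cadj, cl] using h'
        rw [lf_ne hjj] at ho'
        have := cf_eq ho'
        simp at this
      | _ => simp [cadj, cl] at h'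
    | @rg _ _ j' y y' _ hj' h' ho' =>
      left
      have hyq : y = .q ∧ y' = .t := by cases y <;> cases y' <;> simp_all [radj]
      obtain ⟨rfl, rfl⟩ := hyq
      have hjj : j' = (up M r i k).1 := by
        by_contra hjj
        rw [lf_ne hjj] at ho'
        have := cf_eq ho'
        simp at this
      subst hjj
      refine win_cap (j := (up M r i k).1) (y := .t) (okU hk h0) hj (by simp [cadj, cr])
        (Function.update_self ..) ?_
      have hu := sm_update isq hj (lf M σ (up M r i k).1) (some .t)
      rw [nq_lf hj, lf_self] at hu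
      have h1 : isq (some .q) = 1 := rfl
      have h2 : isq (some .t) = 0 := rfl
      omega
  | @S r i k σ hk h0 hb h =>
    have hun : ∀ j y, cl M (.S r i k) (.reg j y) = true → cf M σ j ≠ some y := by
      intro j y hh h2
      have := cf_eq h2
      subst this
      simp only [cl, Bool.and_eq_true, decide_eq_true_eq] at hh
      obtain ⟨rfl, h3⟩ := hh
      rw [hb] at h3
      simp at h3
    obtain ⟨v', h1, h2, h3, rfl⟩ := step_left (v := .S r i k) hun hs'
    obtain ⟨-, rfl⟩ := ctrl_S (p := true) h1 h3
    obtain ⟨k', rfl⟩ : ∃ k', k = k' + 1 := ⟨k - 1, by omega⟩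
    refine Or.inr (.Z hk ?_)
    rw [upd_take hk h0, ← hb, Function.update_eq_self, Nat.add_sub_cancel] at h
    exact h
  | @B σ =>
    obtain ⟨v', h1, h2, h3, rfl⟩ := step_left (v := .B) (fun j y hh => by simp [cl] at hh) hs'
    cases v' with
    | A => exact Or.inr .A
    | _ => simp [cl, ctrl] at h1 h3

theorem closeB (hM : ARMPr M) : ∀ s, NB M s → ∃ s', SStep M s s' ∧ NA M s' := by
  intro s hs
  cases hs with
  | @R r i σ hr hg hi h =>
    have hk : ok3 M r i (us M r i).length = true := by
      rw [ok3_iff]
      exact ⟨hr, hi, le_rfl⟩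
    exact ⟨_, .ctl (v' := .X r i (us M r i).length) (ok_R hr) (by simpa [ok] using hk)
      (by simp [cadj, cr]) rfl, .X hk (by rwa [List.take_length])⟩
  | @U r i k σ hk h0 h =>
    have hj := up_lt hM hk h0
    exact ⟨_, .rg (j := (up M r i k).1) (y' := .q) hj rfl (cf_of hj), .U hk h0 h⟩
  | @S r i k σ hk h0 h =>
    have hj := up_lt hM hk h0
    refine ⟨_, .rg (j := (up M r i k).1) (y' := .p (up M r i k).2) hj rfl lf_self, ?_⟩
    rw [lf_set hj]
    refine .S hk h0 (by simp) ?_
    rw [upd_take_update hk h0]
    exact h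
  | @Z r i k σ hk h =>
    exact ⟨_, .ctl (v' := .X r i k) (okZ hk (Nat.succ_pos k)) (by simpa [ok] using ok3_pred hk)
      (by simp [cadj, cr]) rfl, .X (ok3_pred hk) h⟩
  | @A σ =>
    exact ⟨_, .ctl (v' := .B) rfl rfl rfl rfl, .B⟩

/-- Left, to move at `G`, wins if and only if the machine accepts. -/
theorem win_G (hM : ARMPr M) (σ : ℕ → Bool) :
    N M (true, some .G, cf M σ) ↔ Der M.2.2 M.2.1 σ := by
  constructor
  · intro h
    by_contra hno
    exact Forces.not_win_of (closeA hM) (closeB hM) (NA.G hno) h
  · intro h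
    exact acc hM h .G (Or.inl ⟨rfl, rfl⟩)

/-- the loop, Right to move -/
def La (M : ARM) (s : Bool × St) : Prop := ∃ σ, s = (false, some .A, cf M σ)

/-- the loop, Left to move -/
def Lb' (M : ARM) (s : Bool × St) : Prop := ∃ σ, s = (true, some .B, cf M σ)

theorem not_win_A (σ : ℕ → Bool) : ¬ N M (false, some .A, cf M σ) := by
  refine Forces.not_win_of (A := La M) (B := Lb' M) ?_ ?_ ⟨σ, rfl⟩
  · rintro s ⟨σ, rfl⟩ s' hs'
    rcases step_right (v := .A) rfl (fun j => rfl) (fun j y hh => by simp [cr] at hh) hs' with
      h3 | ⟨v', h3, h4, h5, rfl⟩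
    · exact Or.inl h3
    · cases v' with
      | B => exact Or.inr ⟨σ, rfl⟩
      | _ => simp [cr, ctrl] at h3 h5
  · rintro s ⟨σ, rfl⟩
    exact ⟨_, .ctl (v' := .A) rfl rfl rfl rfl, σ, rfl⟩

/-- Left, to move at `G`, never loses. -/
theorem not_lose_G (σ : ℕ → Bool) : ¬ P M (true, some .G, cf M σ) := by
  intro h
  cases h with
  | lose h => exact not_win_A σ (h _ (.ctl (v' := .A) rfl rfl rfl rfl))

theorem lose_I (hM : ARMPr M) (σ : ℕ → Bool) :
    P M (false, some .I, cf M σ) ↔ Der M.2.2 M.2.1 σ := by
  constructor
  · intro h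
    cases h with
    | lose h =>
      rw [← win_G hM]
      exact h _ (.ctl (v' := .G) rfl rfl rfl rfl)
  · intro h
    rw [← win_G hM] at h
    refine .lose fun s' hs' => ?_
    rcases step_right (v := .I) rfl (fun j => rfl) (fun j y hh => by simp [cr] at hh) hs' with
      h3 | ⟨v', h3, h4, h5, rfl⟩
    · exact h3
    · cases v' with
      | G => exact h
      | _ => simp [cr, ctrl] at h3 h5

end Pool.Agent.R538.EB
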