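import Pool.Agent.H578R2.ANN.PolyI

/-!
# Edge Blocking: the game, and the board of an alternating register machine
-/

namespace Pool.Agent.R538.EB

open Pool.Agent.H820R2.SS
open Pool.Agent.NPC.ANN (Forces rl pm us up ok3)

/-- A move of Edge Blocking.  A position consists of the player to move (`true` for Left) and the
set of the occupied vertices; `E true` are the edges of Left and `E false` those of Right. -/
def GMove {V : Type} [DecidableEq V] (E : Bool → V → V → Prop) (P Q : Bool × (V → Bool)) : Prop :=
  ∃ u v : V, P.2 u = true ∧ P.2 v = false ∧ E P.1 u v ∧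
    Q = (!P.1, Function.update (Function.update P.2 u false) v true)

/-- Positions of the hole of a register region: showing a value, lifted, dead. -/
inductive Y : Type
  | p (b : Bool)
  | q
  | t
  deriving DecidableEq

/-- Vertices. -/
inductive V : Type
  | G | I | A | B
  | R (r : ℕ)
  | X (r i k : ℕ)
  | U (r i k : ℕ)
  | S (r i k : ℕ)
  | Z (r i k : ℕ)
  | reg (j : ℕ) (y : Y)
  deriving DecidableEq

/-- the vertices which are used -/
def ok (M : ARM) : V → Bool
  | .R r => decide (r < M.2.2.length)
  | .X r i k => ok3 M r i k
  | .U r i k => decide (0 < k) && ok3 M r i k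
  | .S r i k => decide (0 < k) && ok3 M r i k
  | .Z r i k => decide (0 < k) && ok3 M r i k
  | .reg j _ => decide (j < M.1.length)
  | _ => true

/-- control vertices -/
def ctrl : V → Bool
  | .reg _ _ => false
  | _ => true

/-- Left's edges for the control token -/
def cl (M : ARM) : V → V → Bool
  | .G, .A => true
  | .G, .R r => decide ((rl M r).1 = M.2.1)
  | .I, .reg _ .q => true
  | .A, .reg _ .q => true
  | .B, .A => true
  | .R _, .reg _ .q => true
  | .X r i k, .U r' i' k' => decide (r = r') && (decide (i = i') && decide (k = k'))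
  | .X r i k, .R r' => decide (k = 0) && decide ((rl M r').1 = (pm M r i).1)
  | .U r i k, .S r' i' k' => decide (r = r') && (decide (i = i') && decide (k = k'))
  | .U r i k, .reg j .q => !decide (j = (up M r i k).1)
  | .S r i k, .Z r' i' k' => decide (r = r') && (decide (i = i') && decide (k = k'))
  | .S _ _ _, .reg _ .t => true
  | .S r i k, .reg j (.p b) => decide (j = (up M r i k).1) && decide (b = !(up M r i k).2)
  | .Z _ _ _, .reg _ .q => true
  | _, _ => false

/-- Right's edges for the control token -/
def cr (M : ARM) : V → V → Bool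
  | .I, .G => true
  | .A, .B => true
  | .R r, .reg j (.p b) => decide ((j, !b) ∈ (rl M r).2.1)
  | .R r, .X r' i k => decide (r = r') && decide (k = (us M r' i).length)
  | .U r i k, .reg j .t => decide (j = (up M r i k).1)
  | .Z r i k, .X r' i' k' => decide (r = r') && (decide (i = i') && decide (k = k' + 1))
  | _, _ => false

/-- edges for the control token -/
def cadj (M : ARM) (p : Bool) (v v' : V) : Bool := bif p then cl M v v' else cr M v v'

/-- moves of the hole of a register region -/
def radj : Bool → Y → Y → Bool
  | false, .p _, .q => true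
  | false, .q, .p _ => true
  | true, .q, .t => true
  | _, _, _ => false

/-- edges of the region tokens: a token moves from `y'` to the hole `y` -/
def tadj (p : Bool) : V → V → Bool
  | .reg j y', .reg j' y => decide (j = j') && radj p y y'
  | _, _ => false

/-- The edges of the players. -/
def EE (M : ARM) (p : Bool) (u v : V) : Prop :=
  ok M u = true ∧ ok M v = true ∧ (cadj M p u v || tadj p u v) = true

/-- Abstract positions: place of the control token, places of the holes. -/
abbrev St : Type := Option V × (ℕ → Option Y)

/-- The position on the board. -/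
def place (M : ARM) (s : St) (v : V) : Bool :=
  if s.1 = some v then true else
    match v with
    | .reg j y => decide (j < M.1.length) && !decide (s.2 j = some y)
    | _ => false

/-- Moves between abstract positions. -/
inductive SStep (M : ARM) : Bool × St → Bool × St → Prop
  | ctl {p : Bool} {v v' : V} {ρ : ℕ → Option Y} (h1 : ok M v = true) (h2 : ok M v' = true)
      (h : cadj M p v v' = true) (hc : ctrl v' = true) :
      SStep M (p, some v, ρ) (!p, some v', ρ)
  | cap {p : Bool} {v : V} {j : ℕ} {y : Y} {ρ : ℕ → Option Y} (h1 : ok M v = true)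
      (h2 : j < M.1.length) (h : cadj M p v (.reg j y) = true) (ho : ρ j = some y) :
      SStep M (p, some v, ρ) (!p, none, Function.update ρ j none)
  | rg {p : Bool} {c : Option V} {j : ℕ} {y y' : Y} {ρ : ℕ → Option Y} (hj : j < M.1.length)
      (h : radj p y y' = true) (ho : ρ j = some y) :
      SStep M (p, c, ρ) (!p, c, Function.update ρ j (some y'))

/-- the control token is at a control vertex -/
def Inv (s : St) : Prop := ∀ v, s.1 = some v → ctrl v = true

theorem radj_ne {p : Bool} {y y' : Y} (h : radj p y y' = true) : y ≠ y' := by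
  rintro rfl
  cases p <;> cases y <;> simp [radj] at h

theorem cadj_ne {M : ARM} {p : Bool} {v v' : V} (h : cadj M p v v' = true) : v ≠ v' := by
  rintro rfl
  cases p <;> cases v <;> simp [cadj, cl, cr] at h

theorem cadj_ctrl {M : ARM} {p : Bool} {v v' : V} (h : cadj M p v v' = true) :
    ctrl v = true := by
  cases p <;> cases v <;> simp_all [cadj, cl, cr, ctrl]

theorem SStep.inv {M : ARM} {s s' : Bool × St} (h : SStep M s s') (hs : Inv s.2) : Inv s'.2 := by
  cases h with
  | ctl h1 h2 h hc =>
    intro v hv
    rw [← Option.some.inj hv]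
    exact hc
  | cap h1 h2 h ho =>
    intro v hv
    simp at hv
  | rg hj h ho => exact hs

/-! ### Abstract positions and positions on the board -/

theorem place_reg (M : ARM) (s : St) (hs : Inv s) (j : ℕ) (y : Y) : place M s (.reg j y) =
    (decide (j < M.1.length) && !decide (s.2 j = some y)) := by
  unfold place
  rw [if_neg]
  intro h
  exact absurd (hs _ h) (by simp [ctrl])

theorem place_ctrl (M : ARM) (s : St) {v : V} (hv : ctrl v = true) :
    place M s v = decide (s.1 = some v) := by
  unfold place
  by_cases h : s.1 = some v
  · simp [h]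
  · rw [if_neg h, decide_eq_false h]
    cases v <;> simp_all [ctrl]

theorem inv_some {v : V} (hv : ctrl v = true) (ρ : ℕ → Option Y) : Inv (some v, ρ) := by
  intro w hw
  rw [← Option.some.inj hw]
  exact hv

theorem inv_none (ρ : ℕ → Option Y) : Inv (none, ρ) := by
  intro w hw
  simp at hw

theorem eq_ctl {M : ARM} {v v' : V} {ρ : ℕ → Option Y} (hne : v ≠ v') (hv : ctrl v = true)
    (hv' : ctrl v' = true) : place M (some v', ρ) =
      Function.update (Function.update (place M (some v, ρ)) v false) v' true := by
  funext w
  simp only [Function.update_apply]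
  by_cases hw : w = v'
  · rw [if_pos hw, hw, place_ctrl _ _ hv']
    simp
  · rw [if_neg hw]
    by_cases hw2 : w = v
    · rw [if_pos hw2, hw2, place_ctrl _ _ hv]
      simp only [Option.some.injEq, decide_eq_false_iff_not]
      exact fun h => hne h.symm
    · rw [if_neg hw2]
      cases w with
      | reg j y => rw [place_reg _ _ (inv_some hv' ρ), place_reg _ _ (inv_some hv ρ)]
      | _ =>
        rw [place_ctrl _ _ rfl, place_ctrl _ _ rfl]
        simp only [Option.some.injEq, decide_eq_decide]
        exact ⟨fun h => absurd h.symm hw, fun h => absurd h.symm hw2⟩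

theorem eq_cap {M : ARM} {v : V} {j : ℕ} {y : Y} {ρ : ℕ → Option Y} (hv : ctrl v = true)
    (hj : j < M.1.length) (ho : ρ j = some y) :
    place M (none, Function.update ρ j none) =
      Function.update (Function.update (place M (some v, ρ)) v false) (.reg j y) true := by
  funext w
  simp only [Function.update_apply]
  by_cases hw : w = .reg j y
  · rw [if_pos hw, hw, place_reg _ _ (inv_none _)]
    simp [hj]
  · rw [if_neg hw]
    by_cases hw2 : w = v
    · rw [if_pos hw2, hw2, place_ctrl _ _ hv]
      simp
    · rw [if_neg hw2]
      cases w with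
      | reg j' y' =>
        rw [place_reg _ _ (inv_none _), place_reg _ _ (inv_some hv ρ)]
        simp only [Function.update_apply]
        by_cases h3 : j' = j
        · subst h3
          rw [if_pos rfl]
          have h4 : y ≠ y' := by
            rintro rfl
            exact hw rfl
          simp [ho, h4]
        · rw [if_neg h3]
      | _ =>
        rw [place_ctrl _ _ rfl, place_ctrl _ _ rfl]
        simp only [Option.some.injEq, reduceCtorEq, decide_false]
        exact (decide_eq_false fun h => hw2 h.symm).symm

theorem eq_rg {M : ARM} {c : Option V} {j : ℕ} {y y' : Y} {ρ : ℕ → Option Y} (hne : y ≠ y')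
    (hj : j < M.1.length) (ho : ρ j = some y) (hs : Inv (c, ρ)) :
    place M (c, Function.update ρ j (some y')) =
      Function.update (Function.update (place M (c, ρ)) (.reg j y') false) (.reg j y) true := by
  have hs' : Inv (c, Function.update ρ j (some y')) := hs
  funext w
  simp only [Function.update_apply]
  by_cases hw : w = .reg j y
  · rw [if_pos hw, hw, place_reg _ _ hs']
    simp [hj, Ne.symm hne]
  · rw [if_neg hw]
    by_cases hw2 : w = .reg j y'
    · rw [if_pos hw2, hw2, place_reg _ _ hs']
      simp
    · rw [if_neg hw2]
      cases w with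
      | reg j' y'' =>
        rw [place_reg _ _ hs', place_reg _ _ hs]
        simp only [Function.update_apply]
        by_cases h3 : j' = j
        · subst h3
          rw [if_pos rfl]
          have h4 : y ≠ y'' := by
            rintro rfl
            exact hw rfl
          have h5 : y' ≠ y'' := by
            rintro rfl
            exact hw2 rfl
          simp [ho, h4, h5]
        · rw [if_neg h3]
      | _ =>
        rw [place_ctrl _ _ rfl, place_ctrl _ _ rfl]

theorem place_step {M : ARM} {s s' : Bool × St} (hs : Inv s.2) (h : SStep M s s') :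
    GMove (EE M) (s.1, place M s.2) (s'.1, place M s'.2) := by
  cases h with
  | @ctl p v v' ρ h1 h2 h hc =>
    have hv := cadj_ctrl h
    refine ⟨v, v', ?_, ?_, ⟨h1, h2, by rw [h]; rfl⟩, ?_⟩
    · simp only
      rw [place_ctrl _ _ hv]
      simp
    · simp only
      rw [place_ctrl _ _ hc]
      simp [cadj_ne h]
    · simp only
      rw [eq_ctl (cadj_ne h) hv hc]
  | @cap p v j y ρ h1 h2 h ho =>
    have hv := cadj_ctrl h
    refine ⟨v, .reg j y, ?_, ?_, ⟨h1, by simpa [ok] using h2, by rw [h]; rfl⟩, ?_⟩
    · simp only
      rw [place_ctrl _ _ hv]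
      simp
    · simp only
      rw [place_reg _ _ (inv_some hv ρ)]
      simp [ho]
    · simp only
      rw [eq_cap hv h2 ho]
  | @rg p c j y y' ρ hj h ho =>
    refine ⟨.reg j y', .reg j y, ?_, ?_, ⟨by simpa [ok] using hj, by simpa [ok] using hj, ?_⟩, ?_⟩
    · simp only
      rw [place_reg _ _ hs]
      simp [ho, hj, radj_ne h]
    · simp only
      rw [place_reg _ _ hs]
      simp [ho]
    · rw [Bool.or_eq_true]
      right
      simp [tadj, h]
    · simp only
      rw [eq_rg (radj_ne h) hj ho hs]

theorem place_move {M : ARM} {p : Bool} {s : St} {Q : Bool × (V → Bool)} (hs : Inv s)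
    (h : GMove (EE M) (p, place M s) Q) : ∃ s', SStep M (p, s) s' ∧ Q = (s'.1, place M s'.2) := by
  obtain ⟨u, v, h1, h2, ⟨h3, h4, h5⟩, h6⟩ := h
  obtain ⟨c, ρ⟩ := s
  simp only at h1 h2 h6
  rw [Bool.or_eq_true] at h5
  rcases h5 with h5 | h5
  · have hu := cadj_ctrl h5
    rw [place_ctrl _ _ hu, decide_eq_true_eq] at h1
    simp only at h1
    subst h1
    cases v with
    | reg j y =>
      have hj : j < M.1.length := by simpa [ok] using h4
      rw [place_reg _ _ hs] at h2
      have ho : ρ j = some y := by simpa [hj] using h2
      exact ⟨_, .cap h3 hj h5 ho, by rw [h6, eq_cap hu hj ho]⟩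
    | _ => exact ⟨_, .ctl h3 h4 h5 rfl, by rw [h6, eq_ctl (cadj_ne h5) hu rfl]⟩
  · cases u with
    | reg j' y' =>
      cases v with
      | reg j y =>
        simp only [tadj, Bool.and_eq_true, decide_eq_true_eq] at h5
        obtain ⟨rfl, h5⟩ := h5
        have hj : j' < M.1.length := by simpa [ok] using h4
        rw [place_reg _ _ hs] at h2
        have ho : ρ j' = some y := by simpa [hj] using h2
        exact ⟨_, .rg hj h5 ho, by rw [h6, eq_rg (radj_ne h5) hj ho hs]⟩
      | _ => simp [tadj] at h5
    | _ => simp [tadj] at h5

/-- The outcomes of abstract positions. -/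
theorem forces_place {M : ARM} {p : Bool} {s : St} (hs : Inv s) {w : Bool} :
    Forces (SStep M) w (p, s) ↔ Forces (GMove (EE M)) w (p, place M s) := by
  refine Forces.bisim_iff (R := fun s P => Inv s.2 ∧ P = (s.1, place M s.2)) ?_ ?_ ⟨hs, rfl⟩
  · rintro a _ ⟨ha, rfl⟩ a' h
    exact ⟨_, place_step ha h, h.inv ha, rfl⟩
  · rintro ⟨p, a⟩ _ ⟨ha, rfl⟩ b' h
    obtain ⟨s', h1, rfl⟩ := place_move ha h
    exact ⟨s', h1, h1.inv ha, rfl⟩

end Pool.Agent.R538.EB
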